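import Pool.Agent.H40.JsPad

set_option autoImplicit false

namespace Pool.Agent.Results.MP_8cb5a2_lc.NoScattered

open Pool.Agent.H40.Bspt Pool.Agent.H40.Jz Pool.Agent.H40.Js

theorem result : ∃ (M : Type) (E : M → M → Prop), IsZF E ∧ ∃ (ℛ : Reals E) (X T : M),
    IsTop E X T ∧ Metrizable ℛ X T ∧ Compact E X T ∧ (∃ x, E x X) ∧ (∀ x, ¬ Isol E X T x) ∧
      ∀ Y, Sub E Y X → ¬ IsFin E Y → ¬ Scattered E Y T := by
  obtain ⟨J⟩ := ex_js Pad.fx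
  exact ⟨J.M, J.E, J.zf, J.reals, J.sA unA, J.T, J.isTop, Pad.metr J, J.compact isCompact_univ,
    ⟨J.nA 0, J.memA.2 trivial⟩, Pad.not_isol J isOpen_univ, Pad.not_scat J⟩

end Pool.Agent.Results.MP_8cb5a2_lc.NoScattered
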